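import Mathlib
import Pool.Agent.Y536.SH.OpenW
import Pool.Agent.Y939.WN.Large
import Pool.Agent.Y205.AV.Win

set_option autoImplicit false

/-!
# Smooth general members for all classes whose Euler characteristic is positive and not small
-/

namespace Pool.Agent.Q299.SM

open MvPolynomial Pool.Agent.H248R5 Pool.Agent.H248R6 Pool.Agent.Y536.SH Pool.Agent.Y205.AV

variable {n : ℕ}

/-- the Euler characteristic -/
def chi (v : Fin n → ℕ) (d : ℕ) : ℤ :=
  ((d + 2).choose 2 : ℤ) - ∑ i, ((v i + 1).choose 2 : ℤ)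

theorem big_of {v : Fin n → ℕ} {μ d : ℕ}
    (h : 25000 * ((μ : ℤ) + 1) ^ 2 ≤ ∑ i, (v i : ℤ) + 4 * |chi v d|) : Big v μ d := by
  left
  have h1 := Pool.Agent.Y939.WN.gap_eq v d
  have h2 : ((25000 * (μ + 1) ^ 2 : ℕ) : ℤ) ≤
      ((∑ p, v p + 2 * Pool.Agent.Y205.AV.gap v d : ℕ) : ℤ) := by
    push_cast
    rw [h1]
    unfold chi at h
    linarith
  exact_mod_cast h2

/-- the good degrees -/
def Good (v : Fin n → ℕ) (d : ℕ) : Prop :=
  ∃ μ : ℕ, 1 ≤ μ ∧ (∀ i, v i ≤ μ) ∧ 60000 * ((μ : ℤ) + 1) ^ 2 ≤ ∑ i, (v i : ℤ) + 4 * chi v d ∧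
    ∀ k, ∑ i, (v i + 1).choose 2 + v k + 1 ≤ (d + 2).choose 2

theorem chi_upd (v : Fin n → ℕ) (k : Fin n) (d : ℕ) :
    chi (Function.update v k (v k + 1)) d = chi v d - v k - 1 := by
  have h1 := sum_updw v k
  have h2 : ∑ i, ((Function.update v k (v k + 1) i + 1).choose 2 : ℤ) =
      ∑ i, ((v i + 1).choose 2 : ℤ) + v k + 1 := by exact_mod_cast h1
  unfold chi
  rw [h2]
  ring

theorem sum_upd1 (v : Fin n → ℕ) (k : Fin n) :
    ∑ i, (Function.update v k (v k + 1) i : ℤ) = ∑ i, (v i : ℤ) + 1 := by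
  classical
  have h1 : ∀ i, (Function.update v k (v k + 1) i : ℤ) = (v i : ℤ) + if i = k then 1 else 0 := by
    intro i
    by_cases hi : i = k
    · subst hi
      rw [Function.update_self, if_pos rfl]
      push_cast
      ring
    · rw [Function.update_of_ne hi, if_neg hi, add_zero]
  rw [Finset.sum_congr rfl fun i _ => h1 i, Finset.sum_add_distrib, Finset.sum_ite_eq',
    if_pos (Finset.mem_univ k)]

/-- one multiplicity raised -/
theorem upd_surj {v : Fin n → ℕ} (k : Fin n) :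
    ∃ F : MvPolynomial (Fin n × Fin 2) ℚ, F ≠ 0 ∧ ∀ {L : Type} [Field L] [CharZero L]
      (P : Fin n → Fin 2 → L), aeval (fun ij : Fin n × Fin 2 => P ij.1 ij.2) F ≠ 0 →
      ∀ d, Good v d → Function.Surjective (ev (Function.update v k (v k + 1)) P d) := by
  obtain ⟨F, hF, hF'⟩ := big_vectors (Function.update v k (v k + 1))
  refine ⟨F, hF, fun {L} _ _ P hP d hd => ?_⟩
  obtain ⟨μ, hμ, hv, h1, h2⟩ := hd
  refine surj_of_exp (hF' P hP d (μ + 1) (fun i => ?_) (big_of ?_)) ?_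
  · by_cases hi : i = k
    · subst hi
      rw [Function.update_self]
      have := hv i
      omega
    · rw [Function.update_of_ne hi]
      have := hv i
      omega
  · rw [sum_upd1, chi_upd]
    have h3 := le_abs_self (chi v d - v k - 1)
    have h4 : (v k : ℤ) ≤ μ := by exact_mod_cast hv k
    have h5 : (1 : ℤ) ≤ μ := by exact_mod_cast hμ
    push_cast
    nlinarith
  · rw [sum_updw]
    exact h2 k

theorem chi_two (v : Fin n → ℕ) (d : ℕ) :
    2 * chi v d = ((d : ℤ) + 1) * (d + 2) - ∑ i, (v i : ℤ) * (v i + 1) := by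
  unfold chi
  have h1 : 2 * (d + 2).choose 2 = (d + 1) * (d + 2) := Pool.Agent.TH2.NU.two_choose (d + 1)
  have h1' : 2 * ((d + 2).choose 2 : ℤ) = ((d : ℤ) + 1) * (d + 2) := by exact_mod_cast h1
  have h2 : 2 * ∑ i, ((v i + 1).choose 2 : ℤ) = ∑ i, (v i : ℤ) * (v i + 1) := by
    rw [Finset.mul_sum]
    refine Finset.sum_congr rfl fun i _ => ?_
    have h3 : 2 * (v i + 1).choose 2 = v i * (v i + 1) := Pool.Agent.TH2.NU.two_choose (v i)
    exact_mod_cast h3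
  rw [mul_sub, h1', h2]

theorem chi_sub (v : Fin n → ℕ) (e : ℕ) :
    chi (fun i => v i - 1) e = chi v (e + 1) - (e + 2) + ∑ i, (v i : ℤ) := by
  have h1 := chi_two (fun i => v i - 1) e
  have h2 := chi_two v (e + 1)
  have h3 : ∑ i, ((v i - 1 : ℕ) : ℤ) * ((v i - 1 : ℕ) + 1) =
      ∑ i, (v i : ℤ) * (v i + 1) - 2 * ∑ i, (v i : ℤ) := by
    rw [Finset.mul_sum, ← Finset.sum_sub_distrib]
    refine Finset.sum_congr rfl fun i _ => ?_
    rcases Nat.eq_zero_or_pos (v i) with h0 | h0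
    · rw [h0]
      simp
    · rw [Nat.cast_sub h0]
      push_cast
      ring
  rw [h3] at h1
  push_cast at h2
  linarith

/-- the size of the degree -/
theorem deg_le {v : Fin n → ℕ} {μ d : ℕ} (hμ : 1 ≤ μ) (hv : ∀ i, v i ≤ μ) (h0 : 0 ≤ chi v d) :
    ((d : ℤ) + 1) ^ 2 ≤ (μ + 1) * (chi v d + ∑ i, (v i : ℤ)) := by
  have h1 := chi_two v d
  have h2 : ∑ i, (v i : ℤ) * (v i + 1) ≤ (μ + 1) * ∑ i, (v i : ℤ) := by
    rw [Finset.mul_sum]
    refine Finset.sum_le_sum fun i _ => ?_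
    have h3 : (v i : ℤ) ≤ μ := by exact_mod_cast hv i
    have h4 : (0 : ℤ) ≤ v i := Nat.cast_nonneg _
    nlinarith
  have h5 : (1 : ℤ) ≤ μ := by exact_mod_cast hμ
  have h6 : (0 : ℤ) ≤ d := Nat.cast_nonneg _
  nlinarith

theorem Good.pos {v : Fin n → ℕ} {d : ℕ} (hn : 0 < n) (h : Good v d) : 0 < chi v d := by
  obtain ⟨μ, -, -, -, h2⟩ := h
  have h3 := h2 ⟨0, hn⟩
  have h4 : ((∑ i, (v i + 1).choose 2 + v ⟨0, hn⟩ + 1 : ℕ) : ℤ) ≤ ((d + 2).choose 2 : ℕ) := by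
    exact_mod_cast h3
  push_cast at h4
  unfold chi
  have h5 : (0 : ℤ) ≤ (v ⟨0, hn⟩ : ℤ) := Nat.cast_nonneg _
  linarith

/-- all multiplicities lowered -/
theorem sub_surj {v : Fin n → ℕ} (hn : 0 < n) :
    ∃ F : MvPolynomial (Fin n × Fin 2) ℚ, F ≠ 0 ∧ ∀ {L : Type} [Field L] [CharZero L]
      (P : Fin n → Fin 2 → L), aeval (fun ij : Fin n × Fin 2 => P ij.1 ij.2) F ≠ 0 →
      ∀ e, Good v (e + 1) → Function.Surjective (ev (fun i => v i - 1) P e) := by
  obtain ⟨F, hF, hF'⟩ := big_vectors fun i => v i - 1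
  refine ⟨F, hF, fun {L} _ _ P hP e hd => ?_⟩
  have hpos := hd.pos hn
  obtain ⟨μ, hμ, hv, h1, h2⟩ := hd
  refine surj_of_exp (hF' P hP e μ (fun i => by have := hv i; omega) (big_of ?_)) ?_
  · have h3 := le_abs_self (chi (fun i => v i - 1) e)
    have h4 : (0 : ℤ) ≤ ∑ i, ((v i - 1 : ℕ) : ℤ) := Finset.sum_nonneg fun i _ => Nat.cast_nonneg _
    rw [chi_sub] at h3 ⊢
    have h5 := deg_le hμ hv hpos.le
    push_cast at h5
    obtain ⟨T, hT⟩ : ∃ T : ℤ, T = chi v (e + 1) + ∑ i, (v i : ℤ) := ⟨_, rfl⟩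
    rw [← hT] at h5
    have h6 : (0 : ℤ) ≤ ∑ i, (v i : ℤ) := Finset.sum_nonneg fun i _ => Nat.cast_nonneg _
    have h7 : 15000 * ((μ : ℤ) + 1) ^ 2 ≤ T := by
      rw [hT]
      linarith
    have h8 : (1 : ℤ) ≤ μ := by exact_mod_cast hμ
    have h9 : 100 * ((e : ℤ) + 2) ≤ T := by
      by_contra hcon
      push Not at hcon
      have hT0 : 0 ≤ T := le_trans (by positivity) h7
      have h10 : T * T ≤ (100 * ((e : ℤ) + 2)) * (100 * (e + 2)) :=
        mul_le_mul hcon.le hcon.le hT0 (by positivity)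
      have h11 : 10000 * ((μ : ℤ) + 1) ≤ T := by nlinarith
      have h12 : 0 < T := by nlinarith
      have h13 : 10000 * (((μ : ℤ) + 1) * T) ≤ T * T := by
        have := mul_le_mul_of_nonneg_right h11 hT0
        linarith
      have h14 : ((e : ℤ) + 1 + 1) ^ 2 = ((e : ℤ) + 2) * (e + 2) := by ring
      rw [h14] at h5
      have h15 : T * T < (100 * ((e : ℤ) + 2)) * (100 * (e + 2)) :=
        mul_lt_mul'' hcon hcon hT0 hT0
      linarith
    have h16 : chi v (e + 1) - ((e : ℤ) + 2) + ∑ i, (v i : ℤ) = T - (e + 2) := by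
      rw [hT]; ring
    rw [h16] at h3 ⊢
    nlinarith
  · refine num_w ?_
    have h3 := h2 ⟨0, hn⟩
    have e1 : e + 1 + 2 = e + 3 := rfl
    rw [e1] at h3
    omega

/-- **smooth general members** for all good degrees and all vectors below the given one -/
theorem smooth {K : Type} [Field K] [CharZero K] (hn : 0 < n) (v : Fin n → ℕ) :
    ∃ F : MvPolynomial (Fin n × Fin 2) ℚ, F ≠ 0 ∧ ∀ P : Fin n → Fin 2 → K,
      aeval (fun ij : Fin n × Fin 2 => P ij.1 ij.2) F ≠ 0 →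
      ∀ w : Fin n → ℕ, (∀ i, w i ≤ v i) → ∀ d, Good v d →
        Module.finrank K ↥(forms w P d) + ∑ i, (w i + 1).choose 2 = (d + 2).choose 2 ∧
          GeneralMember (forms w P d) (SmoothMember w P) := by
  classical
  choose G hG hG' using fun k => upd_surj (v := v) k
  obtain ⟨F1, hF1, hF1'⟩ := sub_surj (v := v) hn
  obtain ⟨F3, hF3, hF3'⟩ := big_vectors v
  obtain ⟨F, hF, hF'⟩ := open_allw (K := K) v hn (Good v)
    (∑ i, (v i + 1).choose 2 + 25000 * (∑ i, v i + 1) ^ 2)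
    (fun e he L _ _ P hP => ⟨fun k => hG' k P (aeval_ne hP (hG k)) _ he,
      hF1' P (aeval_ne hP hF1) e he⟩)
    ⟨∏ k, G k, Finset.prod_ne_zero_iff.2 fun k _ => hG k, fun P hP e he k => by
      rw [map_prod] at hP
      exact hG' k P (Finset.prod_ne_zero_iff.1 hP k (Finset.mem_univ k)) _ he⟩
    ⟨F3, hF3, fun P hP d hd => by
      have h4 := two_choose (d + 1)
      have e4 : d + 1 + 1 = d + 2 := rfl
      rw [e4] at h4
      have h5 : d ≤ (d + 2).choose 2 := by nlinarith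
      refine surj_of_exp (hF3' P hP d (∑ i, v i)
        (fun i => Finset.single_le_sum (fun _ _ => Nat.zero_le _) (Finset.mem_univ i))
        (big_of ?_)) (by omega)
      have h6 := le_abs_self (chi v d)
      have h7 : (0 : ℤ) ≤ ∑ i, (v i : ℤ) := Finset.sum_nonneg fun i _ => Nat.cast_nonneg _
      have h8 : ((∑ i, (v i + 1).choose 2 + 25000 * (∑ i, v i + 1) ^ 2 : ℕ) : ℤ) ≤
          ((d + 2).choose 2 : ℕ) := by exact_mod_cast hd.trans h5
      push_cast at h8 ⊢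
      unfold chi at h6 ⊢
      have h9 : 0 ≤ (∑ i, (v i : ℤ) + 1) ^ 2 := sq_nonneg _
      linarith⟩
  refine ⟨F, hF, fun P hP w hw d hd => ?_⟩
  obtain ⟨e, rfl⟩ : ∃ e, d = e + 1 := by
    refine ⟨d - 1, ?_⟩
    rcases Nat.eq_zero_or_pos d with h0 | h0
    · exfalso
      subst h0
      obtain ⟨μ, hμ, -, h1, h2⟩ := hd
      have h3 := h2 ⟨0, hn⟩
      have h6 : (0 + 2).choose 2 = 1 := rfl
      rw [h6] at h3
      have h7 : ∑ i, (v i + 1).choose 2 = 0 := by omega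
      have h8 : ∀ i, v i = 0 := by
        intro i
        have h9 := (Finset.sum_eq_zero_iff.1 h7) i (Finset.mem_univ i)
        by_contra hne
        have h10 : 0 < (v i + 1).choose 2 := Nat.choose_pos (by omega)
        omega
      have h11 : ∑ i, (v i : ℤ) = 0 := Finset.sum_eq_zero fun i _ => by rw [h8 i]; rfl
      have h12 : chi v 0 ≤ 1 := by
        unfold chi
        rw [h6]
        have : (0 : ℤ) ≤ ∑ i, ((v i + 1).choose 2 : ℤ) :=
          Finset.sum_nonneg fun i _ => Nat.cast_nonneg _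
        push_cast
        linarith
      rw [h11] at h1
      have h13 : (1 : ℤ) ≤ μ := by exact_mod_cast hμ
      nlinarith
    · omega
  exact hF' P hP w hw e (Or.inl hd)

/-- large degrees are good -/
theorem Good.of_deg {v : Fin n → ℕ} {μ d : ℕ} (hμ : 1 ≤ μ) (hv : ∀ i, v i ≤ μ) (hn : 0 < n)
    (h1 : 60000 * (μ + 1) ^ 3 ≤ d ^ 2)
    (h2 : ∀ k, ∑ i, (v i + 1).choose 2 + v k + 1 ≤ (d + 2).choose 2) : Good v d := by
  refine ⟨μ, hμ, hv, ?_, h2⟩
  have h0 : 0 < chi v d := by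
    have h3 := h2 ⟨0, hn⟩
    have h4 : ((∑ i, (v i + 1).choose 2 + v ⟨0, hn⟩ + 1 : ℕ) : ℤ) ≤ ((d + 2).choose 2 : ℕ) := by
      exact_mod_cast h3
    push_cast at h4
    unfold chi
    have h5 : (0 : ℤ) ≤ (v ⟨0, hn⟩ : ℤ) := Nat.cast_nonneg _
    linarith
  have h3 := deg_le hμ hv h0.le
  have h4 : (60000 : ℤ) * (μ + 1) ^ 3 ≤ d ^ 2 := by exact_mod_cast h1
  obtain ⟨T, hT⟩ : ∃ T : ℤ, T = chi v d + ∑ i, (v i : ℤ) := ⟨_, rfl⟩
  rw [← hT] at h3
  have h5 : (1 : ℤ) ≤ μ := by exact_mod_cast hμ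
  have h6 : (0 : ℤ) ≤ d := Nat.cast_nonneg _
  have h7 : ((μ : ℤ) + 1) * (60000 * ((μ : ℤ) + 1) ^ 2) ≤ (μ + 1) * T := by nlinarith
  have h8 := le_of_mul_le_mul_left h7 (by linarith)
  have h9 : ∑ i, (v i : ℤ) + 4 * chi v d = T + 3 * chi v d := by rw [hT]; ring
  rw [h9]
  linarith

end Pool.Agent.Q299.SM
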